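import Pool.Agent.Shared.PNT.WienerIkehara

/-! The prime number theorem, also in arithmetic progressions. -/

namespace Pool.Agent.Shared.PNT

open Filter Topology ArithmeticFunction ArithmeticFunction.vonMangoldt

lemma psi_eq_sum_Icc_one (x : ℝ) :
    Chebyshev.psi x = ∑ k ∈ Finset.Icc 1 ⌊x⌋₊, vonMangoldt k := rfl

/-- Prime number theorem in arithmetic progressions, von Mangoldt form. -/
theorem pnt_residueClass {q : ℕ} [NeZero q] {a : ZMod q} (ha : IsUnit a) :
    Tendsto (fun x : ℝ => (∑ k ∈ Finset.Icc 1 ⌊x⌋₊, residueClass a k) / x) atTop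
      (𝓝 (q.totient : ℝ)⁻¹) := by
  refine wienerIkehara (residueClass a) (residueClass_nonneg a) (Real.log 4 + 4) _
    (by positivity) (fun n => ?_) (LFunctionResidueClassAux a)
    (continuousOn_LFunctionResidueClassAux a) fun s hs => ?_
  · have h := Chebyshev.psi_le_const_mul_self (x := n) (Nat.cast_nonneg n)
    rw [psi_eq_sum_Icc_one, Nat.floor_natCast] at h
    exact (Finset.sum_le_sum fun k _ => residueClass_le a k).trans h
  · rw [eqOn_LFunctionResidueClassAux ha hs]
    push_cast
    rfl

/-- Prime number theorem: `ψ x / x → 1`. -/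
theorem pnt_psi : Tendsto (fun x : ℝ => Chebyshev.psi x / x) atTop (𝓝 1) := by
  have h := pnt_residueClass (q := 1) (a := 1) isUnit_one
  simp only [Nat.totient_one, Nat.cast_one, inv_one] at h
  refine h.congr fun x => ?_
  rw [psi_eq_sum_Icc_one]
  congr 1
  refine Finset.sum_congr rfl fun k _ => ?_
  have : (k : ZMod 1) = 1 := Subsingleton.elim _ _
  simp [residueClass, this]

lemma tendsto_psi_sub_theta :
    Tendsto (fun x : ℝ => (Chebyshev.psi x - Chebyshev.theta x) / x) atTop (𝓝 0) := by
  obtain ⟨C, hC⟩ := Chebyshev.psi_sub_theta_le_mul_sqrt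
  have h1 : Tendsto (fun x : ℝ => C * (√x)⁻¹) atTop (𝓝 (C * 0)) :=
    (Real.tendsto_sqrt_atTop.inv_tendsto_atTop).const_mul C
  rw [mul_zero] at h1
  refine tendsto_of_tendsto_of_tendsto_of_le_of_le' tendsto_const_nhds h1 ?_ ?_
  · filter_upwards [eventually_gt_atTop 0] with x hx
    exact div_nonneg (sub_nonneg.2 (Chebyshev.theta_le_psi x)) hx.le
  · filter_upwards [eventually_gt_atTop 0] with x hx
    rw [div_le_iff₀ hx]
    refine (hC x).trans (le_of_eq ?_)
    have h3 := Real.sqrt_pos.2 hx
    field_simp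
    rw [Real.sq_sqrt hx.le]

/-- Prime number theorem: `θ x / x → 1`. -/
theorem pnt_theta : Tendsto (fun x : ℝ => Chebyshev.theta x / x) atTop (𝓝 1) := by
  have h := pnt_psi.sub tendsto_psi_sub_theta
  rw [sub_zero] at h
  refine h.congr fun x => ?_
  ring

/-- Prime number theorem: `π x * log x / x → 1`. -/
theorem pnt_primeCounting :
    Tendsto (fun x : ℝ => (Nat.primeCounting ⌊x⌋₊ : ℝ) * Real.log x / x) atTop (𝓝 1) := by
  obtain ⟨C, hC⟩ := Chebyshev.primeCounting_sub_theta_div_log_isBigO.bound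
  have h1 : Tendsto (fun x : ℝ => C * (Real.log x)⁻¹) atTop (𝓝 (C * 0)) :=
    (Real.tendsto_log_atTop.inv_tendsto_atTop).const_mul C
  rw [mul_zero] at h1
  have h2 : Tendsto (fun x : ℝ => (Nat.primeCounting ⌊x⌋₊ : ℝ) * Real.log x / x
      - Chebyshev.theta x / x) atTop (𝓝 0) := by
    refine squeeze_zero_norm' ?_ h1
    filter_upwards [hC, eventually_gt_atTop 1] with x hx hx1
    have hl := Real.log_pos hx1
    have hx0 : 0 < x := by linarith
    have e : (Nat.primeCounting ⌊x⌋₊ : ℝ) * Real.log x / x - Chebyshev.theta x / x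
        = (Nat.primeCounting ⌊x⌋₊ - Chebyshev.theta x / Real.log x) * (Real.log x / x) := by
      field_simp
    rw [e, norm_mul, Real.norm_of_nonneg (by positivity : 0 ≤ Real.log x / x)]
    rw [Real.norm_of_nonneg (by positivity : 0 ≤ x / Real.log x ^ 2)] at hx
    calc _ ≤ C * (x / Real.log x ^ 2) * (Real.log x / x) := by gcongr
      _ = _ := by field_simp
  have h3 := h2.add pnt_theta
  rw [zero_add] at h3
  refine h3.congr fun x => ?_
  ring

/-- Prime number theorem in arithmetic progressions, `θ` form. -/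
theorem pnt_theta_residueClass {q : ℕ} [NeZero q] {a : ZMod q} (ha : IsUnit a) :
    Tendsto (fun x : ℝ => (∑ p ∈ Finset.Icc 1 ⌊x⌋₊ with (Nat.Prime p ∧ (Nat.cast p : ZMod q) = a),
      Real.log (p : ℕ)) / x) atTop (𝓝 (q.totient : ℝ)⁻¹) := by
  have h2 : Tendsto (fun x : ℝ => (∑ k ∈ Finset.Icc 1 ⌊x⌋₊, residueClass a k) / x
      - (∑ p ∈ Finset.Icc 1 ⌊x⌋₊ with (Nat.Prime p ∧ (Nat.cast p : ZMod q) = a), Real.log (p : ℕ)) / x)
      atTop (𝓝 0) := by
    refine tendsto_of_tendsto_of_tendsto_of_le_of_le' tendsto_const_nhds tendsto_psi_sub_theta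
      ?_ ?_
    · filter_upwards [eventually_gt_atTop 0] with x hx
      rw [← sub_div]
      refine div_nonneg (sub_nonneg.2 ?_) hx.le
      rw [Finset.sum_filter]
      refine Finset.sum_le_sum fun k _ => ?_
      split_ifs with h
      · simp [residueClass, h.2, vonMangoldt_apply_prime h.1]
      · exact residueClass_nonneg a k
    · filter_upwards [eventually_gt_atTop 0] with x hx
      rw [← sub_div]
      refine div_le_div_of_nonneg_right ?_ hx.le
      have e : Chebyshev.theta x
          = ∑ k ∈ Finset.Icc 1 ⌊x⌋₊, if k.Prime then Real.log k else 0 := by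
        rw [Chebyshev.theta, Finset.sum_filter]
        rfl
      rw [psi_eq_sum_Icc_one, e, Finset.sum_filter, ← Finset.sum_sub_distrib,
        ← Finset.sum_sub_distrib]
      refine Finset.sum_le_sum fun k _ => ?_
      by_cases hp : k.Prime
      · by_cases hk : (k : ZMod q) = a
        · simp [hp, hk, residueClass]
        · simp [hp, hk, residueClass, vonMangoldt_apply_prime hp]
      · simp [hp, residueClass_le a k]
  have h3 := (pnt_residueClass ha).sub h2
  rw [sub_zero] at h3
  refine h3.congr fun x => ?_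
  ring

end Pool.Agent.Shared.PNT
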