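import Mathlib

/-! The Fejer kernel and the analytic core of the Wiener-Ikehara theorem. -/

namespace Pool.Agent.Shared.PNT

open MeasureTheory Filter Topology Set Complex

/-- The Fejer kernel. -/
noncomputable def fej (t : ℝ) : ℝ := Real.sinc (t / 2) ^ 2

lemma fej_nonneg (t : ℝ) : 0 ≤ fej t := sq_nonneg _

lemma continuous_fej : Continuous fej := by
  unfold fej
  exact (Real.continuous_sinc.comp (continuous_id.div_const 2)).pow 2

lemma fej_le (t : ℝ) : fej t ≤ 5 * (1 + t ^ 2)⁻¹ := by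
  have h0 : 0 < 1 + t ^ 2 := by positivity
  rw [← div_eq_mul_inv, le_div_iff₀ h0]
  have h1 : fej t ≤ 1 := by
    unfold fej
    have := Real.abs_sinc_le_one (t / 2)
    rw [← sq_abs]
    nlinarith [abs_nonneg (Real.sinc (t / 2))]
  have h2 : fej t * t ^ 2 ≤ 4 := by
    by_cases ht : t = 0
    · simp [ht]
    · unfold fej
      rw [Real.sinc_of_ne_zero (by simpa using ht)]
      have : (Real.sin (t / 2) / (t / 2)) ^ 2 * t ^ 2 = 4 * Real.sin (t / 2) ^ 2 := by
        field_simp
        ring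
      rw [this]
      nlinarith [Real.sin_sq_le_one (t / 2)]
  nlinarith

lemma integrable_fej : Integrable fej := by
  refine Integrable.mono' (integrable_inv_one_add_sq.const_mul 5)
    continuous_fej.aestronglyMeasurable (Eventually.of_forall fun t => ?_)
  rw [Real.norm_of_nonneg (fej_nonneg t)]
  exact fej_le t

lemma integral_fej_pos : 0 < ∫ t, fej t := by
  refine integral_pos_of_integrable_nonneg_nonzero (x := 0) continuous_fej integrable_fej
    fej_nonneg ?_
  simp [fej]

lemma fej_eq (t : ℝ) :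
    ∫ y in (-1 : ℝ)..1, ((1 - |y| : ℝ) : ℂ) * cexp (I * y * t) = (fej t : ℂ) := by
  have hc : Continuous fun y : ℝ => ((1 - |y| : ℝ) : ℂ) * cexp (I * y * t) := by fun_prop
  rw [← intervalIntegral.integral_add_adjacent_intervals (b := 0)
    (hc.intervalIntegrable _ _) (hc.intervalIntegrable _ _)]
  have e1 : ∫ y in (-1 : ℝ)..0, ((1 - |y| : ℝ) : ℂ) * cexp (I * y * t)
      = ∫ y in (-1 : ℝ)..0, (1 + (y : ℂ)) * cexp (I * t * y) := by
    refine intervalIntegral.integral_congr fun y hy => ?_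
    rw [uIcc_of_le (by norm_num)] at hy
    simp only [abs_of_nonpos hy.2]
    push_cast
    ring_nf
  have e2 : ∫ y in (0 : ℝ)..1, ((1 - |y| : ℝ) : ℂ) * cexp (I * y * t)
      = ∫ y in (0 : ℝ)..1, (1 - (y : ℂ)) * cexp (I * t * y) := by
    refine intervalIntegral.integral_congr fun y hy => ?_
    rw [uIcc_of_le (by norm_num)] at hy
    simp only [abs_of_nonneg hy.1]
    push_cast
    ring_nf
  rw [e1, e2]
  by_cases ht : t = 0
  · subst ht
    have a1 : ∫ y in (-1 : ℝ)..0, (1 + (y : ℂ)) * cexp (I * (0 : ℝ) * y)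
        = ((0 : ℝ) + ((0 : ℝ) : ℂ) ^ 2 / 2) - (((-1 : ℝ) : ℂ) + ((-1 : ℝ) : ℂ) ^ 2 / 2) := by
      refine intervalIntegral.integral_eq_sub_of_hasDerivAt
        (f := fun y : ℝ => (y : ℂ) + (y : ℂ) ^ 2 / 2) (fun y _ => ?_)
        (Continuous.intervalIntegrable (by fun_prop) _ _)
      have := ((hasDerivAt_id (y : ℂ)).add (((hasDerivAt_id (y : ℂ)).pow 2).div_const 2)).comp_ofReal
      refine this.congr_deriv ?_
      simp
    have a2 : ∫ y in (0 : ℝ)..1, (1 - (y : ℂ)) * cexp (I * (0 : ℝ) * y)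
        = ((1 : ℝ) - ((1 : ℝ) : ℂ) ^ 2 / 2) - (((0 : ℝ) : ℂ) - ((0 : ℝ) : ℂ) ^ 2 / 2) := by
      refine intervalIntegral.integral_eq_sub_of_hasDerivAt
        (f := fun y : ℝ => (y : ℂ) - (y : ℂ) ^ 2 / 2) (fun y _ => ?_)
        (Continuous.intervalIntegrable (by fun_prop) _ _)
      have := ((hasDerivAt_id (y : ℂ)).sub (((hasDerivAt_id (y : ℂ)).pow 2).div_const 2)).comp_ofReal
      refine this.congr_deriv ?_
      simp
    rw [a1, a2]
    simp [fej]
    norm_num
  · set c : ℂ := I * t with hcdef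
    have hc0 : c ≠ 0 := mul_ne_zero I_ne_zero (by exact_mod_cast ht)
    have hexp : ∀ z : ℂ, HasDerivAt (fun z : ℂ => cexp (c * z)) (cexp (c * z) * c) z := by
      intro z
      simpa using ((hasDerivAt_id z).const_mul c).cexp
    have a1 : ∫ y in (-1 : ℝ)..0, (1 + (y : ℂ)) * cexp (c * y)
        = ((1 + ((0 : ℝ) : ℂ)) * cexp (c * (0 : ℝ)) / c - cexp (c * (0 : ℝ)) / c ^ 2)
          - ((1 + ((-1 : ℝ) : ℂ)) * cexp (c * (-1 : ℝ)) / c - cexp (c * (-1 : ℝ)) / c ^ 2) := by
      refine intervalIntegral.integral_eq_sub_of_hasDerivAt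
        (f := fun y : ℝ => (1 + (y : ℂ)) * cexp (c * y) / c - cexp (c * y) / c ^ 2) (fun y _ => ?_)
        (Continuous.intervalIntegrable (by fun_prop) _ _)
      have := ((((((hasDerivAt_id (y : ℂ)).const_add 1).mul (hexp y)).div_const c).sub
        ((hexp y).div_const (c ^ 2)))).comp_ofReal
      refine this.congr_deriv ?_
      simp only [id]
      field_simp
      ring
    have a2 : ∫ y in (0 : ℝ)..1, (1 - (y : ℂ)) * cexp (c * y)
        = ((1 - ((1 : ℝ) : ℂ)) * cexp (c * (1 : ℝ)) / c + cexp (c * (1 : ℝ)) / c ^ 2)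
          - ((1 - ((0 : ℝ) : ℂ)) * cexp (c * (0 : ℝ)) / c + cexp (c * (0 : ℝ)) / c ^ 2) := by
      refine intervalIntegral.integral_eq_sub_of_hasDerivAt
        (f := fun y : ℝ => (1 - (y : ℂ)) * cexp (c * y) / c + cexp (c * y) / c ^ 2) (fun y _ => ?_)
        (Continuous.intervalIntegrable (by fun_prop) _ _)
      have := ((((((hasDerivAt_id (y : ℂ)).const_sub 1).mul (hexp y)).div_const c).add
        ((hexp y).div_const (c ^ 2)))).comp_ofReal
      refine this.congr_deriv ?_
      simp only [id]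
      field_simp
      ring
    rw [a1, a2]
    have hf : (fej t : ℂ) = (cexp c + cexp (-c) - 2) / c ^ 2 := by
      have h1 : cexp c + cexp (-c) = 2 * Complex.cos t := by
        rw [Complex.two_cos, hcdef]
        congr 2 <;> ring
      have h2 : fej t = (2 - 2 * Real.cos t) / t ^ 2 := by
        unfold fej
        rw [Real.sinc_of_ne_zero (by simpa using ht)]
        have : Real.cos t = 1 - 2 * Real.sin (t / 2) ^ 2 := by
          have := Real.cos_two_mul (t / 2)
          have h3 := Real.sin_sq_add_cos_sq (t / 2)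
          rw [show 2 * (t / 2) = t by ring] at this
          linarith
        rw [this]
        field_simp
        ring
      rw [h1, h2, hcdef, mul_pow, I_sq]
      push_cast
      have : (t : ℂ) ≠ 0 := by exact_mod_cast ht
      field_simp
      ring
    rw [hf]
    simp
    field_simp
    ring

end Pool.Agent.Shared.PNT
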