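import Pool.Agent.Shared.PNT.Fejer

/-! The analytic core of the Wiener-Ikehara theorem: a bounded function whose Laplace transform
extends continuously to the closed right half plane has Fejer means tending to zero. -/

namespace Pool.Agent.Shared.PNT

open MeasureTheory Filter Topology Set Complex

lemma core_eps (g : ℝ → ℝ) (hg : Measurable g) (C : ℝ) (hC : ∀ t, |g t| ≤ C) (H : ℂ → ℂ)
    (hL : ∀ s : ℂ, 0 < s.re → H s = ∫ t in Ioi (0 : ℝ), (g t : ℂ) * cexp (-s * t))
    (l T ε : ℝ) (hε : 0 < ε) :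
    ∫ t in Ioi (0 : ℝ), (g t : ℂ) * cexp (-ε * t) * (fej (l * (T - t)) : ℂ)
      = ∫ y in (-1 : ℝ)..1, ((1 - |y| : ℝ) : ℂ) * cexp (I * y * (l * T)) * H (ε + I * y * l) := by
  have hC0 : 0 ≤ C := (abs_nonneg _).trans (hC 0)
  simp_rw [← fej_eq, intervalIntegral.integral_of_le (show (-1 : ℝ) ≤ 1 by norm_num),
    ← integral_const_mul]
  rw [integral_integral_swap]
  · refine setIntegral_congr_fun measurableSet_Ioc fun y _ => ?_
    rw [hL _ (by simpa using hε), ← integral_const_mul]
    refine setIntegral_congr_fun measurableSet_Ioi fun t _ => ?_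
    have : cexp (I * y * (l * T)) * cexp (-(ε + I * y * l) * t)
        = cexp (-ε * t) * cexp (I * y * ((l * (T - t) : ℝ) : ℂ)) := by
      rw [← Complex.exp_add, ← Complex.exp_add]
      congr 1
      push_cast
      ring
    linear_combination (-(g t : ℂ) * ((1 - |y| : ℝ) : ℂ)) * this
  · have h1 : Integrable (fun t : ℝ => C * Real.exp (-ε * t)) (volume.restrict (Ioi 0)) :=
      (exp_neg_integrableOn_Ioi 0 hε).const_mul C
    have h2 : Integrable (fun _ : ℝ => (1 : ℝ)) (volume.restrict (Ioc (-1 : ℝ) 1)) :=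
      integrable_const _
    refine Integrable.mono' (h1.mul_prod h2) ?_ ?_
    · refine Measurable.aestronglyMeasurable ?_
      unfold Function.uncurry
      fun_prop
    · rw [Measure.prod_restrict, ae_restrict_iff' (measurableSet_Ioi.prod measurableSet_Ioc)]
      refine Eventually.of_forall fun z hz => ?_
      obtain ⟨t, y⟩ := z
      obtain ⟨-, hy1, hy2⟩ := hz
      simp only at hy1 hy2
      simp only [Function.uncurry, norm_mul, Complex.norm_real, Complex.norm_exp, mul_one]
      have a1 : (-(ε : ℂ) * t).re = -ε * t := by simp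
      have a2 : (I * y * ((l * (T - t) : ℝ) : ℂ)).re = 0 := by
        simp only [mul_re, I_re, I_im, ofReal_re, ofReal_im, mul_im]
        ring
      rw [a1, a2, Real.exp_zero, mul_one]
      have a3 : ‖1 - |y|‖ ≤ 1 := by
        rw [Real.norm_eq_abs, abs_le]
        have : |y| ≤ 1 := abs_le.2 ⟨hy1.le, hy2⟩
        constructor <;> linarith [abs_nonneg y]
      have a4 : ‖g t‖ ≤ C := hC t
      have a5 := Real.exp_pos (-ε * t)
      calc ‖g t‖ * Real.exp (-ε * t) * ‖1 - |y|‖ ≤ C * Real.exp (-ε * t) * 1 := by gcongr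
        _ = _ := mul_one _

lemma core_zero (g : ℝ → ℝ) (hg : Measurable g) (C : ℝ) (hC : ∀ t, |g t| ≤ C) (H : ℂ → ℂ)
    (hH : ContinuousOn H {s | 0 ≤ s.re})
    (hL : ∀ s : ℂ, 0 < s.re → H s = ∫ t in Ioi (0 : ℝ), (g t : ℂ) * cexp (-s * t))
    (l T : ℝ) (hl : 0 < l) :
    ∫ t in Ioi (0 : ℝ), (g t : ℂ) * (fej (l * (T - t)) : ℂ)
      = ∫ y in (-1 : ℝ)..1, ((1 - |y| : ℝ) : ℂ) * cexp (I * y * (l * T)) * H (I * y * l) := by
  have hC0 : 0 ≤ C := (abs_nonneg _).trans (hC 0)
  have hfi : Integrable fun t : ℝ => fej (l * (T - t)) :=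
    (integrable_fej.comp_mul_left' hl.ne').comp_sub_left T
  have L1 : Tendsto (fun ε : ℝ => ∫ t in Ioi (0 : ℝ),
      (g t : ℂ) * cexp (-ε * t) * (fej (l * (T - t)) : ℂ)) (𝓝[>] 0)
      (𝓝 (∫ t in Ioi (0 : ℝ), (g t : ℂ) * (fej (l * (T - t)) : ℂ))) := by
    refine tendsto_integral_filter_of_dominated_convergence (fun t => C * fej (l * (T - t)))
      ?_ ?_ (hfi.const_mul C).integrableOn ?_
    · refine Eventually.of_forall fun ε => Measurable.aestronglyMeasurable ?_
      have := continuous_fej.measurable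
      fun_prop
    · filter_upwards [self_mem_nhdsWithin] with ε hε
      rw [ae_restrict_iff' measurableSet_Ioi]
      refine Eventually.of_forall fun t ht => ?_
      simp only [norm_mul, Complex.norm_real, Complex.norm_exp]
      have a1 : (-(ε : ℂ) * t).re = -ε * t := by simp
      rw [a1, Real.norm_of_nonneg (fej_nonneg _)]
      have a2 : Real.exp (-ε * t) ≤ 1 := by
        rw [Real.exp_le_one_iff]
        have h1 : 0 < ε := hε
        have h2 : 0 < t := ht
        nlinarith
      have a4 : ‖g t‖ ≤ C := hC t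
      have a5 := fej_nonneg (l * (T - t))
      calc ‖g t‖ * Real.exp (-ε * t) * fej (l * (T - t)) ≤ C * 1 * fej (l * (T - t)) := by gcongr
        _ = _ := by ring
    · refine Eventually.of_forall fun t => ?_
      have : Continuous fun ε : ℝ => (g t : ℂ) * cexp (-ε * t) * (fej (l * (T - t)) : ℂ) := by
        fun_prop
      have h2 := (this.tendsto 0).mono_left (nhdsWithin_le_nhds (s := Ioi 0))
      simpa using h2
  have hmap : Continuous fun z : ℝ × ℝ => (z.1 : ℂ) + I * z.2 * l := by fun_prop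
  have hHc : ContinuousOn (fun z : ℝ × ℝ => H ((z.1 : ℂ) + I * z.2 * l)) (Ici 0 ×ˢ univ) :=
    hH.comp hmap.continuousOn fun z hz => by simpa using hz.1
  obtain ⟨B, hB⟩ := (isCompact_Icc (a := (0 : ℝ)) (b := 1)).prod
    (isCompact_Icc (a := (-1 : ℝ)) (b := 1)) |>.exists_bound_of_continuousOn
    (hHc.mono (prod_mono Icc_subset_Ici_self (subset_univ _)))
  have L2 : Tendsto (fun ε : ℝ => ∫ y in (-1 : ℝ)..1,
      ((1 - |y| : ℝ) : ℂ) * cexp (I * y * (l * T)) * H (ε + I * y * l)) (𝓝[>] 0)
      (𝓝 (∫ y in (-1 : ℝ)..1, ((1 - |y| : ℝ) : ℂ) * cexp (I * y * (l * T)) * H (I * y * l))) := by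
    refine intervalIntegral.tendsto_integral_filter_of_dominated_convergence (fun _ => B)
      ?_ ?_ (by simp) ?_
    · filter_upwards [self_mem_nhdsWithin] with ε hε
      refine Continuous.aestronglyMeasurable ?_
      have h3 : Continuous fun y : ℝ => H (ε + I * y * l) :=
        hHc.comp_continuous (f := fun y : ℝ => (ε, y)) (by fun_prop)
          fun y => ⟨mem_Ici.2 (le_of_lt (mem_Ioi.1 hε)), trivial⟩
      exact Continuous.mul (by fun_prop) h3
    · filter_upwards [Ioc_mem_nhdsGT (show (0 : ℝ) < 1 by norm_num)] with ε hε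
      refine Eventually.of_forall fun y hy => ?_
      rw [uIoc_of_le (by norm_num)] at hy
      have a2 : (I * y * (l * T : ℂ)).re = 0 := by
        simp only [mul_re, I_re, I_im, ofReal_re, ofReal_im, mul_im]
        ring
      simp only [norm_mul, Complex.norm_real, Complex.norm_exp, a2, Real.exp_zero, mul_one]
      have a3 : ‖1 - |y|‖ ≤ 1 := by
        rw [Real.norm_eq_abs, abs_le]
        have : |y| ≤ 1 := abs_le.2 ⟨hy.1.le, hy.2⟩
        constructor <;> linarith [abs_nonneg y]
      have a4 := hB (ε, y) ⟨⟨hε.1.le, hε.2⟩, ⟨hy.1.le, hy.2⟩⟩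
      simp only at a4
      calc _ ≤ 1 * B := by gcongr
        _ = B := one_mul _
    · refine Eventually.of_forall fun y _ => ?_
      refine Tendsto.const_mul _ ?_
      have h3 : ContinuousOn (fun ε : ℝ => H (ε + I * y * l)) (Ici 0) :=
        hHc.comp (f := fun ε : ℝ => (ε, y)) (by fun_prop) fun ε hε => ⟨hε, trivial⟩
      have h4 := (h3 0 self_mem_Ici).tendsto.mono_left (nhdsWithin_mono _ Ioi_subset_Ici_self)
      simpa using h4
  refine tendsto_nhds_unique L1 (L2.congr' ?_)
  filter_upwards [self_mem_nhdsWithin] with ε hε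
  exact (core_eps g hg C hC H hL l T ε hε).symm

/-- Analytic core of the Wiener-Ikehara theorem. -/
theorem core (g : ℝ → ℝ) (hg : Measurable g) (C : ℝ) (hC : ∀ t, |g t| ≤ C) (H : ℂ → ℂ)
    (hH : ContinuousOn H {s | 0 ≤ s.re})
    (hL : ∀ s : ℂ, 0 < s.re → H s = ∫ t in Ioi (0 : ℝ), (g t : ℂ) * cexp (-s * t))
    (l : ℝ) (hl : 0 < l) :
    Tendsto (fun T : ℝ => ∫ t in Ioi (0 : ℝ), g t * fej (l * (T - t))) atTop (𝓝 0) := by
  have RL := Real.tendsto_integral_exp_smul_cocompact
    ((Ioc (-1 : ℝ) 1).indicator fun y : ℝ => ((1 - |y| : ℝ) : ℂ) * H (I * y * l))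
  have hT : Tendsto (fun T : ℝ => -(l * T / (2 * Real.pi))) atTop (cocompact ℝ) := by
    refine Tendsto.mono_right ?_ atBot_le_cocompact
    refine tendsto_neg_atTop_atBot.comp ?_
    exact (tendsto_id.const_mul_atTop hl).atTop_div_const (by positivity)
  have h2 := RL.comp hT
  have h3 : Tendsto (fun T : ℝ => ((∫ t in Ioi (0 : ℝ), g t * fej (l * (T - t)) : ℝ) : ℂ))
      atTop (𝓝 0) := by
    refine h2.congr fun T => ?_
    rw [← integral_complex_ofReal]
    simp only [Function.comp]
    have := core_zero g hg C hC H hH hL l T hl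
    simp only [Complex.ofReal_mul]
    rw [this, intervalIntegral.integral_of_le (by norm_num), ← integral_indicator measurableSet_Ioc]
    congr 1
    ext y
    by_cases hy : y ∈ Ioc (-1 : ℝ) 1
    · simp only [indicator_of_mem hy, Circle.smul_def, Real.fourierChar_apply, smul_eq_mul]
      have : ((2 * Real.pi * -(y * -(l * T / (2 * Real.pi))) : ℝ) : ℂ) * I = I * y * (l * T) := by
        have : (Real.pi : ℂ) ≠ 0 := by exact_mod_cast Real.pi_ne_zero
        push_cast
        field_simp
      rw [this]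
      ring
    · simp [indicator_of_notMem hy]
  have := (Complex.continuous_re.tendsto 0).comp h3
  simpa [Function.comp_def] using this

end Pool.Agent.Shared.PNT
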