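import Pool.Agent.Shared.PNT.Core

/-! The Wiener-Ikehara theorem (for sequences with linearly bounded summatory function). -/

namespace Pool.Agent.Shared.PNT

open MeasureTheory Filter Topology Set Complex

lemma integral_comp_scale (h : ℝ → ℝ) (l T : ℝ) (hl : 0 < l) :
    l * ∫ t, h (l * (T - t)) = ∫ u, h u := by
  have h1 := integral_sub_left_eq_self (fun t => h (l * t)) volume T
  rw [h1, Measure.integral_comp_mul_left, abs_of_pos (inv_pos.2 hl), smul_eq_mul, ← mul_assoc,
    mul_inv_cancel₀ hl.ne', one_mul]

lemma tendsto_J : Tendsto (fun R : ℝ => ∫ u, (Icc (-R) R).indicator fej u) atTop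
    (𝓝 (∫ u, fej u)) := by
  have := (aecover_Icc (μ := (volume : Measure ℝ)) tendsto_neg_atTop_atBot
    tendsto_id).integral_tendsto_of_countably_generated integrable_fej
  refine this.congr fun R => ?_
  rw [integral_indicator measurableSet_Icc]
  rfl

theorem tauber (f : ℝ → ℝ) (hf : Measurable f) (C A : ℝ) (hA : 0 ≤ A) (h0 : ∀ t, 0 ≤ f t)
    (hC : ∀ t, f t ≤ C) (hmono : ∀ s t, s ≤ t → f s * Real.exp s ≤ f t * Real.exp t)
    (hlim : ∀ l : ℝ, 0 < l →
      Tendsto (fun T : ℝ => ∫ t in Ioi (0 : ℝ), (f t - A) * fej (l * (T - t))) atTop (𝓝 0)) :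
    Tendsto f atTop (𝓝 A) := by
  set c := ∫ u, fej u with hc
  have hcpos : 0 < c := integral_fej_pos
  set J : ℝ → ℝ := fun R => ∫ u, (Icc (-R) R).indicator fej u with hJ
  have hC0 : 0 ≤ C := (h0 0).trans (hC 0)
  have key : ∀ R η T : ℝ, 0 < R → 0 < η → η < T →
      f (T - η) * Real.exp (-(2 * η)) * J R - A * c
        ≤ (R / η) * ∫ t in Ioi (0 : ℝ), (f t - A) * fej (R / η * (T - t)) ∧
      (R / η) * ∫ t in Ioi (0 : ℝ), (f t - A) * fej (R / η * (T - t))
        ≤ (f (T + η) * Real.exp (2 * η) - A) * J R + C * (c - J R) := by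
    intro R η T hR hη hT
    set l := R / η with hldef
    have hl : 0 < l := div_pos hR hη
    have i1 : Integrable fun t : ℝ => fej (l * (T - t)) :=
      (integrable_fej.comp_mul_left' hl.ne').comp_sub_left T
    have i2 : Integrable fun t : ℝ => (Icc (-R) R).indicator fej (l * (T - t)) :=
      ((integrable_fej.indicator measurableSet_Icc).comp_mul_left' hl.ne').comp_sub_left T
    have i3 : Integrable ((Ioi (0 : ℝ)).indicator fun t => (f t - A) * fej (l * (T - t))) := by
      refine Integrable.indicator ?_ measurableSet_Ioi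
      refine i1.bdd_mul (c := C + A) (Measurable.aestronglyMeasurable (by fun_prop)) ?_
      refine Eventually.of_forall fun t => ?_
      rw [Real.norm_eq_abs, abs_le]
      constructor <;> linarith [h0 t, hC t]
    have e1 := integral_comp_scale fej l T hl
    have e2 := integral_comp_scale ((Icc (-R) R).indicator fej) l T hl
    have hmem : ∀ t, l * (T - t) ∈ Icc (-R) R → T - η ≤ t ∧ t ≤ T + η := by
      intro t ht
      have hR' : R = l * η := by rw [hldef]; field_simp
      obtain ⟨a1, a2⟩ := ht
      rw [hR'] at a1 a2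
      constructor
      · by_contra hh
        push Not at hh
        nlinarith
      · by_contra hh
        push Not at hh
        nlinarith
    rw [← integral_indicator measurableSet_Ioi]
    constructor
    · have : ∫ t, (f (T - η) * Real.exp (-(2 * η)) * (Icc (-R) R).indicator fej (l * (T - t))
          - A * fej (l * (T - t)))
          ≤ ∫ t, (Ioi (0 : ℝ)).indicator (fun t => (f t - A) * fej (l * (T - t))) t := by
        refine integral_mono ((i2.const_mul _).sub (i1.const_mul _)) i3 fun t => ?_
        have k0 := fej_nonneg (l * (T - t))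
        by_cases ht : l * (T - t) ∈ Icc (-R) R
        · obtain ⟨a1, a2⟩ := hmem t ht
          have ht0 : t ∈ Ioi (0 : ℝ) := by simp only [mem_Ioi]; linarith
          simp only [indicator_of_mem ht, indicator_of_mem ht0]
          have b1 := hmono _ _ a1
          have b2 : f (T - η) * Real.exp (-(2 * η)) ≤ f t := by
            have b3 : Real.exp (-(2 * η)) * Real.exp t ≤ Real.exp (T - η) := by
              rw [← Real.exp_add]
              exact Real.exp_le_exp.2 (by linarith)
            have b4 := mul_le_mul_of_nonneg_left b3 (h0 (T - η))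
            have b5 := Real.exp_pos t
            by_contra hh
            push Not at hh
            nlinarith
          nlinarith
        · simp only [indicator_of_notMem ht]
          by_cases ht0 : t ∈ Ioi (0 : ℝ)
          · simp only [indicator_of_mem ht0]
            nlinarith [h0 t]
          · simp only [indicator_of_notMem ht0]
            nlinarith
      rw [integral_sub (i2.const_mul _) (i1.const_mul _), integral_const_mul,
        integral_const_mul] at this
      have h5 := mul_le_mul_of_nonneg_left this hl.le
      simp only [hJ]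
      rw [← e2, hc, ← e1]
      linarith
    · have : ∫ t, (Ioi (0 : ℝ)).indicator (fun t => (f t - A) * fej (l * (T - t))) t
          ≤ ∫ t, ((f (T + η) * Real.exp (2 * η) - A - C) * (Icc (-R) R).indicator fej (l * (T - t))
          + C * fej (l * (T - t))) := by
        refine integral_mono i3 ((i2.const_mul _).add (i1.const_mul _)) fun t => ?_
        have k0 := fej_nonneg (l * (T - t))
        by_cases ht : l * (T - t) ∈ Icc (-R) R
        · obtain ⟨a1, a2⟩ := hmem t ht
          have ht0 : t ∈ Ioi (0 : ℝ) := by simp only [mem_Ioi]; linarith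
          simp only [indicator_of_mem ht, indicator_of_mem ht0]
          have b1 := hmono _ _ a2
          have b2 : f t ≤ f (T + η) * Real.exp (2 * η) := by
            have b3 : Real.exp (T + η) ≤ Real.exp (2 * η) * Real.exp t := by
              rw [← Real.exp_add]
              exact Real.exp_le_exp.2 (by linarith)
            have b4 := mul_le_mul_of_nonneg_left b3 (h0 (T + η))
            have b5 := Real.exp_pos t
            by_contra hh
            push Not at hh
            nlinarith
          nlinarith
        · simp only [indicator_of_notMem ht]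
          by_cases ht0 : t ∈ Ioi (0 : ℝ)
          · simp only [indicator_of_mem ht0]
            nlinarith [hC t]
          · simp only [indicator_of_notMem ht0]
            nlinarith
      rw [integral_add (i2.const_mul _) (i1.const_mul _), integral_const_mul,
        integral_const_mul] at this
      have h5 := mul_le_mul_of_nonneg_left this hl.le
      simp only [hJ]
      rw [← e2, hc, ← e1]
      linarith
  have hJc : Tendsto J atTop (𝓝 c) := tendsto_J
  have hexp : Tendsto (fun η : ℝ => Real.exp (2 * η)) (𝓝[>] 0) (𝓝 1) := by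
    have : Continuous fun η : ℝ => Real.exp (2 * η) := by fun_prop
    have h2 := (this.tendsto 0).mono_left (nhdsWithin_le_nhds (s := Ioi 0))
    simpa using h2
  rw [tendsto_order]
  constructor
  · intro a ha
    have t1 : Tendsto (fun R => A * J R - C * (c - J R) - a * J R) atTop
        (𝓝 (A * c - C * (c - c) - a * c)) :=
      ((hJc.const_mul A).sub ((hJc.const_sub c).const_mul C)).sub (hJc.const_mul a)
    have p1 : 0 < A * c - C * (c - c) - a * c := by nlinarith
    obtain ⟨R, hR1, hR2, hR3⟩ := ((t1.eventually (lt_mem_nhds p1)).and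
      ((hJc.eventually (lt_mem_nhds hcpos)).and (eventually_gt_atTop 0))).exists
    have t2 : Tendsto (fun η => A * J R - C * (c - J R) - a * Real.exp (2 * η) * J R) (𝓝[>] 0)
        (𝓝 (A * J R - C * (c - J R) - a * 1 * J R)) :=
      ((hexp.const_mul a).mul_const _).const_sub _
    rw [mul_one] at t2
    obtain ⟨η, hη1, hη2⟩ := ((t2.eventually (lt_mem_nhds hR1)).and
      self_mem_nhdsWithin).exists
    have hη : 0 < η := hη2
    have t3 := (hlim (R / η) (div_pos hR3 hη)).const_mul (R / η)
    rw [mul_zero] at t3
    have t4 := (t3.eventually (lt_mem_nhds (show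
      -(A * J R - C * (c - J R) - a * Real.exp (2 * η) * J R) < 0 by linarith))).and
      (eventually_gt_atTop η)
    have t5 := (tendsto_atTop_add_const_right atTop (-η) tendsto_id).eventually t4
    filter_upwards [t5] with t ht
    obtain ⟨b1, b2⟩ := ht
    have b3 := (key R η _ hR3 hη b2).2
    simp only [id] at b1 b3
    rw [show t + -η + η = t by ring] at b3
    have b4 : a * Real.exp (2 * η) * J R < f t * Real.exp (2 * η) * J R := by linarith
    exact lt_of_mul_lt_mul_right (lt_of_mul_lt_mul_right b4 hR2.le) (Real.exp_pos _).le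
  · intro a ha
    have t1 : Tendsto (fun R => a * J R - A * c) atTop (𝓝 (a * c - A * c)) :=
      (hJc.const_mul a).sub_const _
    have p1 : 0 < a * c - A * c := by nlinarith
    obtain ⟨R, hR1, hR2, hR3⟩ := ((t1.eventually (lt_mem_nhds p1)).and
      ((hJc.eventually (lt_mem_nhds hcpos)).and (eventually_gt_atTop 0))).exists
    have hexp' : Tendsto (fun η : ℝ => Real.exp (-(2 * η))) (𝓝[>] 0) (𝓝 1) := by
      simpa [Real.exp_neg] using hexp.inv₀ one_ne_zero
    have t2 : Tendsto (fun η => a * Real.exp (-(2 * η)) * J R - A * c) (𝓝[>] 0)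
        (𝓝 (a * 1 * J R - A * c)) :=
      ((hexp'.const_mul a).mul_const _).sub_const _
    rw [mul_one] at t2
    obtain ⟨η, hη1, hη2⟩ := ((t2.eventually (lt_mem_nhds hR1)).and
      self_mem_nhdsWithin).exists
    have hη : 0 < η := hη2
    have t3 := (hlim (R / η) (div_pos hR3 hη)).const_mul (R / η)
    rw [mul_zero] at t3
    have t4 := (t3.eventually (gt_mem_nhds hη1)).and (eventually_gt_atTop η)
    have t5 := (tendsto_atTop_add_const_right atTop η tendsto_id).eventually t4
    filter_upwards [t5] with t ht
    obtain ⟨b1, b2⟩ := ht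
    have b3 := (key R η _ hR3 hη b2).1
    simp only [id] at b1 b3
    rw [show t + η - η = t by ring] at b3
    have b4 : f t * Real.exp (-(2 * η)) * J R < a * Real.exp (-(2 * η)) * J R := by linarith
    exact lt_of_mul_lt_mul_right (lt_of_mul_lt_mul_right b4 hR2.le) (Real.exp_pos _).le

/-- **Wiener-Ikehara theorem** for nonnegative sequences with linearly bounded summatory function. -/
theorem wienerIkehara (a : ℕ → ℝ) (ha : ∀ n, 0 ≤ a n) (C A : ℝ) (hA : 0 ≤ A)
    (hC : ∀ n : ℕ, ∑ k ∈ Finset.Icc 1 n, a k ≤ C * n) (G : ℂ → ℂ)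
    (hG : ContinuousOn G {s | 1 ≤ s.re})
    (hL : ∀ s : ℂ, 1 < s.re → G s = LSeries (fun n => (a n : ℂ)) s - A / (s - 1)) :
    Tendsto (fun x : ℝ => (∑ k ∈ Finset.Icc 1 ⌊x⌋₊, a k) / x) atTop (𝓝 A) := by
  set M : ℝ → ℝ := fun x => ∑ k ∈ Finset.Icc 1 ⌊x⌋₊, a k with hM
  have hMm : Monotone M := fun x y hxy =>
    Finset.sum_le_sum_of_subset_of_nonneg
      (Finset.Icc_subset_Icc_right (Nat.floor_le_floor hxy)) fun _ _ _ => ha _
  have hM0 : ∀ x, 0 ≤ M x := fun x => Finset.sum_nonneg fun _ _ => ha _
  have hC0 : 0 ≤ C := by
    have h1 := hC 1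
    simp at h1
    exact (ha 1).trans h1
  set f : ℝ → ℝ := fun t => M (Real.exp t) * Real.exp (-t) with hf
  have hfm : Measurable f := by
    have := hMm.measurable
    fun_prop
  have hfe : ∀ t, f t * Real.exp t = M (Real.exp t) := fun t => by
    simp only [hf]
    rw [mul_assoc, ← Real.exp_add]
    simp
  have hf0 : ∀ t, 0 ≤ f t := fun t => mul_nonneg (hM0 _) (Real.exp_pos _).le
  have hfC : ∀ t, f t ≤ C := fun t => by
    have h1 : M (Real.exp t) ≤ C * Real.exp t :=
      (hC _).trans (mul_le_mul_of_nonneg_left (Nat.floor_le (Real.exp_pos _).le) hC0)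
    rw [← hfe] at h1
    exact le_of_mul_le_mul_right h1 (Real.exp_pos _)
  have hO : (fun n => ∑ k ∈ Finset.Icc 1 n, a k) =O[atTop] fun n : ℕ => (n : ℝ) ^ (1 : ℝ) := by
    refine Asymptotics.IsBigO.of_bound C (Eventually.of_forall fun n => ?_)
    rw [Real.norm_of_nonneg (Finset.sum_nonneg fun _ _ => ha _), Real.rpow_one,
      Real.norm_of_nonneg (Nat.cast_nonneg _)]
    exact hC n
  have main : Tendsto f atTop (𝓝 A) := by
    refine tauber f hfm C A hA hf0 hfC (fun s t hst => ?_) fun l hl => ?_
    · rw [hfe, hfe]
      exact hMm (Real.exp_le_exp.2 hst)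
    refine core (fun t => f t - A) (by fun_prop) (C + A) (fun t => ?_)
      (fun s => (G (1 + s) - A) / (1 + s)) ?_ (fun s hs => ?_) l hl
    · rw [abs_le]
      constructor <;> linarith [hf0 t, hfC t]
    · refine ContinuousOn.div (ContinuousOn.sub (hG.comp (by fun_prop) fun s hs => ?_)
        continuousOn_const) (by fun_prop) fun s hs h => ?_
      · simpa using hs
      · have h1 : (1 + s).re = 0 := by rw [h]; simp
        have h2 : 0 ≤ s.re := hs
        simp at h1
        linarith
    · have hs1 : 1 < (1 + s).re := by simpa using hs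
      have hs0 : s ≠ 0 := fun h => by simp [h] at hs
      have hs2 : 1 + s ≠ 0 := fun h => by rw [h] at hs1; norm_num at hs1
      rw [hL _ hs1, LSeries_eq_mul_integral_of_nonneg a zero_le_one hs1 hO ha]
      have himg : Real.exp '' Ioi 0 = Ioi 1 := by
        ext x
        simp only [mem_image, mem_Ioi]
        constructor
        · rintro ⟨t, ht, rfl⟩
          exact Real.one_lt_exp_iff.2 ht
        · intro hx
          exact ⟨Real.log x, Real.log_pos hx, Real.exp_log (by linarith)⟩
      rw [← himg, integral_image_eq_integral_abs_deriv_smul measurableSet_Ioi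
        (fun x _ => (Real.hasDerivAt_exp x).hasDerivWithinAt) Real.exp_injective.injOn]
      have e1 : ∀ t : ℝ, |Real.exp t| • ((∑ k ∈ Finset.Icc 1 ⌊Real.exp t⌋₊, (a k : ℂ))
          * (Real.exp t : ℂ) ^ (-(1 + s + 1))) = (f t : ℂ) * cexp (-s * t) := by
        intro t
        rw [abs_of_pos (Real.exp_pos t), Complex.real_smul, Complex.cpow_def_of_ne_zero
          (by exact_mod_cast (Real.exp_pos t).ne'), ← Complex.ofReal_log (Real.exp_pos t).le,
          Real.log_exp]
        simp only [hf, hM]
        push_cast
        have : cexp t * cexp (t * -(1 + s + 1)) = cexp (-t) * cexp (-s * t) := by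
          rw [← Complex.exp_add, ← Complex.exp_add]
          congr 1
          ring
        linear_combination (∑ k ∈ Finset.Icc 1 ⌊Real.exp t⌋₊, (a k : ℂ)) * this
      simp_rw [e1]
      have i1 : IntegrableOn (fun t : ℝ => cexp (-s * t)) (Ioi 0) :=
        integrableOn_exp_mul_complex_Ioi (by simpa using hs) 0
      have i2 : IntegrableOn (fun t : ℝ => (f t : ℂ) * cexp (-s * t)) (Ioi 0) := by
        refine Integrable.bdd_mul (c := C) i1 (Measurable.aestronglyMeasurable (by fun_prop)) ?_
        refine Eventually.of_forall fun t => ?_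
        rw [Complex.norm_real, Real.norm_of_nonneg (hf0 t)]
        exact hfC t
      have e2 : ∫ t in Ioi (0 : ℝ), ((f t - A : ℝ) : ℂ) * cexp (-s * t)
          = (∫ t in Ioi (0 : ℝ), (f t : ℂ) * cexp (-s * t)) - A * s⁻¹ := by
        have e3 : ∫ t in Ioi (0 : ℝ), cexp (-s * t) = s⁻¹ := by
          rw [integral_exp_mul_complex_Ioi (by simpa using hs) 0]
          simp
        rw [← e3, ← integral_const_mul, ← integral_sub i2 (i1.const_mul _)]
        congr 1
        ext t
        push_cast
        ring
      rw [e2, add_sub_cancel_left]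
      field_simp
      ring
  have h2 := main.comp Real.tendsto_log_atTop
  refine h2.congr' ?_
  filter_upwards [eventually_gt_atTop 0] with x hx
  simp only [Function.comp, hf, Real.exp_neg, Real.exp_log hx, hM]
  rfl

end Pool.Agent.Shared.PNT
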